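import Pool.Agent.H572R4.Stmts

/-!
Project H572-PI: the alternating formulas and the sets of locations (TaskD4).
-/

set_option autoImplicit false

namespace Pool.Agent.H572R4

open Pool.Agent.Helper446.Defs Pool.Agent.Helper446.CB Pool.Agent.Helper446.CB.Ix

namespace D4H237

theorem inf_iff {B : EPi} {x y z : LB B} (h : x ⊓ y = z) (t : ℕ → Bool) :
    t ∈ z.1 ↔ t ∈ x.1 ∧ t ∈ y.1 := by
  rw [← h]; exact Iff.rfl

theorem sup_iff {B : EPi} {x y z : LB B} (h : x ⊔ y = z) (t : ℕ → Bool) :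
    t ∈ z.1 ↔ t ∈ x.1 ∨ t ∈ y.1 := by
  rw [← h]; exact Iff.rfl

theorem ext' {B : EPi} {x y : LB B} (h : ∀ t, t ∈ x.1 ↔ t ∈ y.1) : x = y :=
  Subtype.ext (Set.ext h)

theorem cpl_inf {B : EPi} {c f : LB B} (hc : Cpl c) (hf : Cpl f) : Cpl (c ⊓ f) := by
  obtain ⟨d, h1, h2⟩ := hc
  obtain ⟨e, h3, h4⟩ := hf
  refine ⟨d ⊔ e, ext' fun t => ?_, ext' fun t => ?_⟩
  · have a1 := inf_iff h1 t
    have a3 := inf_iff h3 t
    have ac : t ∈ B.1 → t ∈ c.1 := fun h => c.2.2 h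
    have af : t ∈ B.1 → t ∈ f.1 := fun h => f.2.2 h
    have b : t ∈ (⊥ : LB B).1 ↔ t ∈ B.1 := Iff.rfl
    show ((t ∈ c.1 ∧ t ∈ f.1) ∧ (t ∈ d.1 ∨ t ∈ e.1)) ↔ t ∈ (⊥ : LB B).1
    tauto
  · have a1 := sup_iff h2 t
    have a3 := sup_iff h4 t
    have b : t ∈ (⊤ : LB B).1 := trivial
    show ((t ∈ c.1 ∧ t ∈ f.1) ∨ (t ∈ d.1 ∨ t ∈ e.1)) ↔ t ∈ (⊤ : LB B).1
    tauto

theorem xp_ne_zz (j : ℕ) : xp j ≠ zz := by
  intro h
  have := congrFun h j
  simp [xp, zz] at this

end D4H237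

open D4H237 in
theorem taskD4 : TaskD4 := by
  intro D1 D2 B hB V A hV k
  induction k with
  | zero =>
    intro c hc
    exact not_congr (hV 0 c hc)
  | succ k ih =>
    intro c hc
    have hD1 : ∀ c : LB B, Cpl c → CR (Rc c.1) := D1 B hB
    constructor
    · rintro ⟨h1, h2⟩
      refine ⟨fun hk => ?_, fun hk => ?_⟩
      · obtain ⟨c', hc', hle, hg, ht⟩ := h1 hk
        exact ⟨Rc c'.1, hD1 c' hc', fun j hj => hle hj, (hV (k + 1) c' hc').1 hg,
          (ih c' hc').1 ht⟩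
      · intro R' R'' hR' hR'' hdis hun hcr
        obtain ⟨f, f', e1, e2, e3, e4⟩ := D2 B hB R' hR'
        have hf : Cpl f := ⟨f', e1, e2⟩
        have hf' : Cpl f' := ⟨f, by rw [inf_comm]; exact e1, by rw [sup_comm]; exact e2⟩
        have r1 : Rc (c ⊓ f).1 = R' := by
          show Rc c.1 ∩ Rc f.1 = R'
          rw [e3, ← hun]
          ext j
          simp only [Set.mem_inter_iff, Set.mem_union]
          tauto
        have r2 : Rc (c ⊓ f').1 = R'' := by
          show Rc c.1 ∩ Rc f'.1 = R''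
          rw [e4, ← hun]
          ext j
          have hd : j ∈ R' → j ∉ R'' := fun h => Set.disjoint_left.1 hdis h
          simp only [Set.mem_inter_iff, Set.mem_union, Set.mem_compl_iff]
          tauto
        have h3 := h2 hk (c ⊓ f) (c ⊓ f') (cpl_inf hc hf) (cpl_inf hc hf')
          (ext' fun t => by
            have a1 := inf_iff e1 t
            have ac : t ∈ B.1 → t ∈ c.1 := fun h => c.2.2 h
            have b : t ∈ (⊥ : LB B).1 ↔ t ∈ B.1 := Iff.rfl
            show ((t ∈ c.1 ∧ t ∈ f.1) ∧ (t ∈ c.1 ∧ t ∈ f'.1)) ↔ t ∈ (⊥ : LB B).1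
            tauto)
          (ext' fun t => by
            have a1 := sup_iff e2 t
            have b : t ∈ (⊤ : LB B).1 := trivial
            show ((t ∈ c.1 ∧ t ∈ f.1) ∨ (t ∈ c.1 ∧ t ∈ f'.1)) ↔ t ∈ c.1
            tauto)
          ((hV (k + 1) _ (cpl_inf hc hf)).2 (by rw [r1]; exact hcr))
        have h4 := (ih _ (cpl_inf hc hf')).1 h3
        rw [r2] at h4
        exact h4
    · rintro ⟨h1, h2⟩
      refine ⟨fun hk => ?_, fun hk => ?_⟩
      · obtain ⟨R', hR', hsub, hcr, ht⟩ := h1 hk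
        obtain ⟨f, f', e1, e2, e3, e4⟩ := D2 B hB R' hR'
        have hf : Cpl f := ⟨f', e1, e2⟩
        have r1 : Rc (c ⊓ f).1 = R' := by
          show Rc c.1 ∩ Rc f.1 = R'
          rw [e3]
          exact Set.inter_eq_right.2 hsub
        exact ⟨c ⊓ f, cpl_inf hc hf, inf_le_left,
          (hV (k + 1) _ (cpl_inf hc hf)).2 (by rw [r1]; exact hcr),
          (ih _ (cpl_inf hc hf)).2 (by rw [r1]; exact ht)⟩
      · intro c' c'' hc' hc'' hin hsu hg
        have h3 := h2 hk (Rc c'.1) (Rc c''.1) (hD1 c' hc') (hD1 c'' hc'')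
          (Set.disjoint_left.2 fun j hj hj' => by
            have a1 := (inf_iff hin (xp j)).2 ⟨hj, hj'⟩
            have a2 : xp j ∈ B.1 := a1
            rw [hB] at a2
            exact xp_ne_zz j a2)
          (by rw [← hsu]; rfl)
          ((hV (k + 1) c' hc').1 hg)
        exact (ih c'' hc'').2 h3

end Pool.Agent.H572R4
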