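import Pool.Agent.H572R4.Stmts

set_option autoImplicit false

namespace Pool.Agent.H572R4.D56h564

open Pool.Agent.H572R4 Pool.Agent.Helper446.Defs Pool.Agent.Helper446.CB Pool.Agent.Helper446

/-- a true position of a string -/
def TP (σ : List Bool) (l : ℕ) : Prop := σ[l]? = some true

theorem re_TP {α : Type} [Primcodable α] {f : α → List Bool} {g : α → ℕ} (hf : Primrec f)
    (hg : Primrec g) : REPred fun a => TP (f a) (g a) :=
  RE.eq (Primrec.list_getElem?.comp hf hg).to_comp (Computable.const (some true))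

theorem tp_seg {x : ℕ → Bool} {n l : ℕ} : TP (seg x n) l ↔ l < n ∧ x l = true := by
  unfold TP
  constructor
  · intro h
    have h1 : l < n := by
      by_contra hc
      rw [List.getElem?_eq_none (by rw [seg_length]; omega)] at h
      exact absurd h (by simp)
    rw [seg_getElem? x h1] at h
    exact ⟨h1, Option.some.inj h⟩
  · rintro ⟨h1, h2⟩
    rw [seg_getElem? x h1, h2]

/-- three true positions -/
def W3 : Set (List Bool) := {σ | ∃ l, ∃ l', ∃ l'', l < l' ∧ (l' < l'' ∧ (TP σ l ∧ (TP σ l' ∧ TP σ l'')))}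

/-- two true positions with a wrong gap -/
def W2 (C : Set ℕ) : Set (List Bool) := {σ | ∃ l, ∃ l', l < l' ∧ (TP σ l ∧ (TP σ l' ∧
  (l.unpair.1 ≤ (l' - (l + 1)).unpair.1 ∨ (l' - (l + 1)).unpair.2 ∉ C)))}

/-- two true positions -/
def W1 : Set (List Bool) := {σ | ∃ l, ∃ l', l < l' ∧ (TP σ l ∧ TP σ l')}

theorem re_W3 : REPred fun σ => σ ∈ W3 := by
  refine RE.exN (p := fun (σ : List Bool) l => ∃ l', ∃ l'', l < l' ∧ (l' < l'' ∧
    (TP σ l ∧ (TP σ l' ∧ TP σ l'')))) ?_
  refine RE.exN (p := fun (y : List Bool × ℕ) l' => ∃ l'', y.2 < l' ∧ (l' < l'' ∧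
    (TP y.1 y.2 ∧ (TP y.1 l' ∧ TP y.1 l'')))) ?_
  refine RE.exN (p := fun (y : (List Bool × ℕ) × ℕ) l'' => y.1.2 < y.2 ∧ (y.2 < l'' ∧
    (TP y.1.1 y.1.2 ∧ (TP y.1.1 y.2 ∧ TP y.1.1 l'')))) ?_
  have p1 : Primrec fun y : ((List Bool × ℕ) × ℕ) × ℕ => y.1.1.1 :=
    Primrec.fst.comp (Primrec.fst.comp Primrec.fst)
  have p2 : Primrec fun y : ((List Bool × ℕ) × ℕ) × ℕ => y.1.1.2 :=
    Primrec.snd.comp (Primrec.fst.comp Primrec.fst)
  have p3 : Primrec fun y : ((List Bool × ℕ) × ℕ) × ℕ => y.1.2 := Primrec.snd.comp Primrec.fst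
  have p4 : Primrec fun y : ((List Bool × ℕ) × ℕ) × ℕ => y.2 := Primrec.snd
  exact RE.and (RE.lt p2.to_comp p3.to_comp) (RE.and (RE.lt p3.to_comp p4.to_comp)
    (RE.and (re_TP p1 p2) (RE.and (re_TP p1 p3) (re_TP p1 p4))))

theorem re_W1 : REPred fun σ => σ ∈ W1 := by
  refine RE.exN (p := fun (σ : List Bool) l => ∃ l', l < l' ∧ (TP σ l ∧ TP σ l')) ?_
  refine RE.exN (p := fun (y : List Bool × ℕ) l' => y.2 < l' ∧ (TP y.1 y.2 ∧ TP y.1 l')) ?_
  have p1 : Primrec fun y : (List Bool × ℕ) × ℕ => y.1.1 := Primrec.fst.comp Primrec.fst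
  have p2 : Primrec fun y : (List Bool × ℕ) × ℕ => y.1.2 := Primrec.snd.comp Primrec.fst
  have p3 : Primrec fun y : (List Bool × ℕ) × ℕ => y.2 := Primrec.snd
  exact RE.and (RE.lt p2.to_comp p3.to_comp) (RE.and (re_TP p1 p2) (re_TP p1 p3))

theorem re_W2 {C : Set ℕ} (hC : REPred fun x => x ∉ C) : REPred fun σ => σ ∈ W2 C := by
  refine RE.exN (p := fun (σ : List Bool) l => ∃ l', l < l' ∧ (TP σ l ∧ (TP σ l' ∧
    (l.unpair.1 ≤ (l' - (l + 1)).unpair.1 ∨ (l' - (l + 1)).unpair.2 ∉ C)))) ?_
  refine RE.exN (p := fun (y : List Bool × ℕ) l' => y.2 < l' ∧ (TP y.1 y.2 ∧ (TP y.1 l' ∧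
    (y.2.unpair.1 ≤ (l' - (y.2 + 1)).unpair.1 ∨ (l' - (y.2 + 1)).unpair.2 ∉ C)))) ?_
  have p1 : Primrec fun y : (List Bool × ℕ) × ℕ => y.1.1 := Primrec.fst.comp Primrec.fst
  have p2 : Primrec fun y : (List Bool × ℕ) × ℕ => y.1.2 := Primrec.snd.comp Primrec.fst
  have p3 : Primrec fun y : (List Bool × ℕ) × ℕ => y.2 := Primrec.snd
  have p4 : Primrec fun y : (List Bool × ℕ) × ℕ => (y.2 - (y.1.2 + 1)).unpair :=
    Primrec.unpair.comp (Primrec.nat_sub.comp p3 (Primrec.succ.comp p2))
  have p5 : Primrec fun y : (List Bool × ℕ) × ℕ => y.1.2.unpair.1 :=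
    Primrec.fst.comp (Primrec.unpair.comp p2)
  exact RE.and (RE.lt p2.to_comp p3.to_comp) (RE.and (re_TP p1 p2) (RE.and (re_TP p1 p3)
    (RE.or (RE.le p5.to_comp (Primrec.fst.comp p4).to_comp)
      (RE.comp (p := fun x => x ∉ C) hC (Primrec.snd.comp p4).to_comp))))

theorem taskD5 : TaskD5 := by
  refine isPi01_iff.2 ⟨W1, re_W1, ?_⟩
  ext x
  constructor
  · rintro h n ⟨l, l', h1, h2, h3⟩
    rw [tp_seg] at h2 h3
    rcases h with h | ⟨j, h⟩
    · have := h2.2
      rw [h] at this
      simp [zz] at this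
    · have e1 := h2.2
      have e2 := h3.2
      rw [h] at e1 e2
      have e1' : l = j := by simpa [xp] using e1
      have e2' : l' = j := by simpa [xp] using e2
      omega
  · intro h
    by_cases h0 : ∃ j, x j = true
    · obtain ⟨j, hj⟩ := h0
      right
      refine ⟨j, ?_⟩
      funext l
      by_cases hl : l = j
      · rw [hl, hj]; simp [xp]
      · have : x l = false := by
          by_contra hc
          rw [Bool.not_eq_false] at hc
          rcases Nat.lt_or_gt_of_ne hl with h1 | h1
          · exact h (j + 1) ⟨l, j, h1, tp_seg.2 ⟨by omega, hc⟩, tp_seg.2 ⟨by omega, hj⟩⟩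
          · exact h (l + 1) ⟨j, l, h1, tp_seg.2 ⟨by omega, hj⟩, tp_seg.2 ⟨by omega, hc⟩⟩
        rw [this]; simp [xp, hl]
    · left
      push Not at h0
      funext l
      have : x l = false := Bool.eq_false_iff.2 (h0 l)
      rw [this]; rfl

theorem qp_true {j m l : ℕ} : qp j m l = true ↔ l = j ∨ l = j + 1 + m := by simp [qp]

theorem taskD6 : TaskD6 := by
  intro C hC
  refine isPi01_iff.2 ⟨W3 ∪ W2 C, RE.or re_W3 (re_W2 hC), ?_⟩
  ext x
  constructor
  · intro h n hn
    rcases h with (h | ⟨j, h⟩) | ⟨j, m, h1, h2, h⟩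
    · rcases hn with ⟨l, l', l'', -, -, h3, -⟩ | ⟨l, l', -, h3, -⟩
      · rw [tp_seg, h] at h3
        simp [zz] at h3
      · rw [tp_seg, h] at h3
        simp [zz] at h3
    · have key : ∀ l, TP (seg x n) l → l = j := by
        intro l hl
        rw [tp_seg, h] at hl
        simpa [xp] using hl.2
      rcases hn with ⟨l, l', l'', h3, h4, h5, h6, h7⟩ | ⟨l, l', h3, h5, h6, -⟩
      · have := key _ h5
        have := key _ h6
        omega
      · have := key _ h5
        have := key _ h6
        omega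
    · have key : ∀ l, TP (seg x n) l → l = j ∨ l = j + 1 + m := by
        intro l hl
        rw [tp_seg, h] at hl
        exact qp_true.1 hl.2
      rcases hn with ⟨l, l', l'', h3, h4, h5, h6, h7⟩ | ⟨l, l', h3, h5, h6, h7⟩
      · have := key _ h5
        have := key _ h6
        have := key _ h7
        omega
      · have g1 := key _ h5
        have g2 := key _ h6
        have g3 : l = j := by omega
        have g4 : l' - (l + 1) = m := by omega
        rw [g4, g3] at h7
        rcases h7 with h7 | h7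
        · omega
        · exact h7 h2
  · intro h
    by_cases h0 : ∃ j, x j = true
    · obtain ⟨j, hj, hmin⟩ : ∃ j, x j = true ∧ ∀ l < j, x l = false := by
        classical
        refine ⟨Nat.find h0, Nat.find_spec h0, fun l hl => ?_⟩
        have := Nat.find_min h0 hl
        rwa [Bool.not_eq_true] at this
      by_cases h1 : ∃ l', j < l' ∧ x l' = true
      · obtain ⟨l', hl', hx'⟩ := h1
        right
        refine ⟨j, l' - (j + 1), ?_, ?_, ?_⟩
        · by_contra hc
          exact h (l' + 1) (Or.inr ⟨j, l', hl', tp_seg.2 ⟨by omega, hj⟩, tp_seg.2 ⟨by omega, hx'⟩,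
            Or.inl (by omega)⟩)
        · by_contra hc
          exact h (l' + 1) (Or.inr ⟨j, l', hl', tp_seg.2 ⟨by omega, hj⟩, tp_seg.2 ⟨by omega, hx'⟩,
            Or.inr hc⟩)
        · funext l
          by_cases hx : x l = true
          · rw [hx, eq_comm, qp_true]
            by_contra hc
            push Not at hc
            have hlj : j < l := by
              rcases Nat.lt_trichotomy l j with h2 | h2 | h2
              · rw [hmin l h2] at hx; exact absurd hx (by simp)
              · exact absurd h2 hc.1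
              · exact h2
            rcases Nat.lt_trichotomy l l' with h2 | h2 | h2
            · exact h (l' + 1) (Or.inl ⟨j, l, l', hlj, h2, tp_seg.2 ⟨by omega, hj⟩,
                tp_seg.2 ⟨by omega, hx⟩, tp_seg.2 ⟨by omega, hx'⟩⟩)
            · omega
            · exact h (l + 1) (Or.inl ⟨j, l', l, hl', h2, tp_seg.2 ⟨by omega, hj⟩,
                tp_seg.2 ⟨by omega, hx'⟩, tp_seg.2 ⟨by omega, hx⟩⟩)
          · have hx0 : x l = false := by rwa [Bool.not_eq_true] at hx
            have : ¬ (qp j (l' - (j + 1)) l = true) := by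
              rw [qp_true]
              rintro (h2 | h2)
              · rw [h2, hj] at hx0; exact absurd hx0 (by simp)
              · have : l = l' := by omega
                rw [this, hx'] at hx0; exact absurd hx0 (by simp)
            rw [Bool.not_eq_true] at this
            rw [hx0, this]
      · left; right
        refine ⟨j, ?_⟩
        funext l
        by_cases hl : l = j
        · rw [hl, hj]; simp [xp]
        · have : x l = false := by
            rcases Nat.lt_or_gt_of_ne hl with h2 | h2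
            · exact hmin l h2
            · by_contra hc
              rw [Bool.not_eq_false] at hc
              exact h1 ⟨l, h2, hc⟩
          rw [this]; simp [xp, hl]
    · left; left
      push Not at h0
      funext l
      have : x l = false := Bool.eq_false_iff.2 (h0 l)
      rw [this]; rfl

end Pool.Agent.H572R4.D56h564
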