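import Pool.Agent.H572R4.Stmts

set_option autoImplicit false

namespace Pool.Agent.H572R4.D8h564

open Pool.Agent.H572R4 Pool.Agent.Helper446.Defs Pool.Agent.Helper446.CB Pool.Agent.Helper446

theorem qp_self (j m : ℕ) : qp j m j = true := by simp [qp]

theorem qp_second (j m : ℕ) : qp j m (j + 1 + m) = true := by simp [qp]

/-- bad strings -/
def WW (j i : ℕ) : Set (List Bool) := {σ | σ[j]? = some false ∨
  ∃ l, l ≠ j ∧ (σ[l]? = some true ∧ (l < j ∨ (l - (j + 1)).unpair.1 ≠ i))}

theorem re_WW (j i : ℕ) : REPred fun σ => σ ∈ WW j i := by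
  have h1 : Computable fun σ : List Bool => σ[j]? :=
    (Primrec.list_getElem?.comp Primrec.id (Primrec.const j)).to_comp
  have h2 : Computable fun x : List Bool × ℕ => x.1[x.2]? :=
    (Primrec.list_getElem?.comp Primrec.fst Primrec.snd).to_comp
  have h3 : Computable fun x : List Bool × ℕ => (x.2 - (j + 1)).unpair.1 :=
    (Primrec.fst.comp (Primrec.unpair.comp
      (Primrec.nat_sub.comp Primrec.snd (Primrec.const (j + 1))))).to_comp
  exact RE.or (RE.eq h1 (Computable.const (some false)))
    (RE.exN (p := fun (σ : List Bool) l => l ≠ j ∧ (σ[l]? = some true ∧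
        (l < j ∨ (l - (j + 1)).unpair.1 ≠ i)))
      (RE.and (RE.ne Computable.snd (Computable.const j))
        (RE.and (RE.eq h2 (Computable.const (some true)))
          (RE.or (RE.lt Computable.snd (Computable.const j)) (RE.ne h3 (Computable.const i))))))

theorem mem_R {j i : ℕ} {x : ℕ → Bool} : (∀ n, seg x n ∉ WW j i) ↔
    x j = true ∧ ∀ l, l ≠ j → x l = true → j < l ∧ (l - (j + 1)).unpair.1 = i := by
  constructor
  · intro h
    constructor
    · by_contra hc
      apply h (j + 1)
      left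
      rw [seg_getElem? x (Nat.lt_succ_self j)]
      rw [Bool.not_eq_true] at hc
      rw [hc]
    · intro l hl hx
      by_contra hc
      apply h (l + 1)
      right
      refine ⟨l, hl, ?_, ?_⟩
      · rw [seg_getElem? x (Nat.lt_succ_self l), hx]
      · by_cases h1 : l < j
        · exact Or.inl h1
        · right
          intro h2
          exact hc ⟨by omega, h2⟩
  · rintro ⟨h1, h2⟩ n h3
    have hlt : ∀ l b, (seg x n)[l]? = some b → l < n := by
      intro l b hb
      by_contra hc
      rw [List.getElem?_eq_none (by rw [seg_length]; omega)] at hb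
      exact absurd hb (by simp)
    rcases h3 with h3 | ⟨l, hl, h4, h5⟩
    · have h6 := hlt _ _ h3
      rw [seg_getElem? x h6, h1] at h3
      exact absurd h3 (by simp)
    · have h6 := hlt _ _ h4
      rw [seg_getElem? x h6] at h4
      obtain ⟨h7, h8⟩ := h2 l hl (Option.some.inj h4)
      rcases h5 with h5 | h5
      · omega
      · exact h5 h8

theorem zz_ne_xp (j : ℕ) : zz ≠ xp j := by
  intro h
  have := congrFun h j
  simp [zz, xp] at this

theorem qp_not {j m : ℕ} (h : qp j m ∈ ({zz, xp j} : Set (ℕ → Bool))) : False := by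
  rcases h with g3 | g3
  · have := congrFun g3 j
    rw [qp_self] at this
    simp [zz] at this
  · have := congrFun (Set.mem_singleton_iff.1 g3) (j + 1 + m)
    rw [qp_second] at this
    have h7 : j + 1 + m = j := by simpa [xp] using this.symm
    omega

theorem qp_inj {j m m' : ℕ} (h : qp j m = qp j m') : m = m' := by
  have := congrFun h (j + 1 + m)
  rw [qp_second] at this
  have h7 : j + 1 + m = j ∨ j + 1 + m = j + 1 + m' := by simpa [qp] using this.symm
  omega

/-- the classes -/
theorem mem_class {C : Set ℕ} {j i : ℕ} (hi : i < j.unpair.1) {x : ℕ → Bool} :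
    x ∈ qS C ∩ ({zz} ∪ {x | ∀ n, seg x n ∉ WW j i}) ↔
      x ∈ ({zz, xp j} : Set (ℕ → Bool)) ∨ ∃ k ∈ C, x = qp j (Nat.pair i k) := by
  constructor
  · rintro ⟨hQ, h0 | hR⟩
    · left; left; exact h0
    · obtain ⟨hj, hl⟩ := mem_R.1 hR
      rcases hQ with (h0 | ⟨j', h0⟩) | ⟨j', m', h1, h2, h0⟩
      · left; left; exact h0
      · left; right
        rw [h0] at hj
        have : j = j' := by simpa [xp] using hj
        rw [h0, this]
        rfl
      · right
        have hjj : j' = j := by
          by_contra hne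
          have h3 := (hl j' hne (by rw [h0, qp_self])).1
          have h4 : j = j' ∨ j = j' + 1 + m' := by
            rw [h0] at hj
            simpa [qp] using hj
          omega
        subst hjj
        have h5 := (hl (j' + 1 + m') (by omega) (by rw [h0, qp_second])).2
        rw [Nat.add_sub_cancel_left] at h5
        refine ⟨m'.unpair.2, h2, ?_⟩
        rw [h0]
        congr 1
        rw [← h5, Nat.pair_unpair]
  · rintro ((h0 | h0) | ⟨k, hk, h0⟩)
    · exact ⟨Or.inl (Or.inl h0), Or.inl h0⟩
    · rw [Set.mem_singleton_iff] at h0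
      refine ⟨Or.inl (Or.inr ⟨j, h0⟩), Or.inr (mem_R.2 ⟨?_, ?_⟩)⟩
      · rw [h0]; simp [xp]
      · intro l hl hx
        rw [h0] at hx
        exact absurd (by simpa [xp] using hx) hl
    · refine ⟨Or.inr ⟨j, Nat.pair i k, ?_, ?_, h0⟩, Or.inr (mem_R.2 ⟨?_, ?_⟩)⟩
      · rw [Nat.unpair_pair]; exact hi
      · rw [Nat.unpair_pair]; exact hk
      · rw [h0, qp_self]
      · intro l hl hx
        rw [h0] at hx
        have h1 : l = j ∨ l = j + 1 + Nat.pair i k := by simpa [qp] using hx
        rcases h1 with h1 | h1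
        · exact absurd h1 hl
        · refine ⟨by omega, ?_⟩
          rw [h1, Nat.add_sub_cancel_left, Nat.unpair_pair]

theorem taskD8 : TaskD8 := by
  intro B hB C hC Q hQ j m a hm ha
  obtain ⟨hCinf, hCre, hCoh⟩ := hC
  have hpz : IsPi01 ({zz} : Set (ℕ → Bool)) := by rw [← hB]; exact B.2
  have hpi : ∀ i, IsPi01 (qS C ∩ ({zz} ∪ {x | ∀ n, seg x n ∉ WW j i})) := by
    intro i
    refine IsPi01.inter (by rw [← hQ]; exact Q.2.1) (IsPi01.union hpz ?_)
    exact isPi01_iff.2 ⟨WW j i, re_WW j i, rfl⟩
  have hBs : ∀ i, B.1 ⊆ qS C ∩ ({zz} ∪ {x | ∀ n, seg x n ∉ WW j i}) := by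
    intro i
    rw [hB]
    intro x hx
    exact ⟨Or.inl (Or.inl hx), Or.inl hx⟩
  let cl : ℕ → LB B := fun i => ⟨_, hpi i, hBs i⟩
  refine ⟨(List.range m).map cl, by simp, ?_, ?_, ?_⟩
  · intro d hd
    obtain ⟨i, hi, rfl⟩ := List.mem_map.1 hd
    rw [lb_le, hQ]
    exact Set.inter_subset_left
  · rw [List.pairwise_map]
    have h0 : (List.range m).Pairwise (fun i i' => i < i' ∧ i' < m) := by
      rw [List.pairwise_iff_get]
      intro p q hpq
      simp only [List.get_eq_getElem, List.getElem_range]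
      refine ⟨hpq, ?_⟩
      have := q.2
      simpa using this
    refine h0.imp ?_
    rintro i i' ⟨h1, h2⟩
    rw [lb_le, lb_inf, ha]
    rintro x ⟨hx1, hx2⟩
    rcases (mem_class (by omega)).1 hx1 with h3 | ⟨k, hk, h3⟩
    · exact h3
    · rcases (mem_class (by omega)).1 hx2 with h4 | ⟨k', hk', h4⟩
      · exact h4
      · exfalso
        rw [h3] at h4
        have h5 := qp_inj h4
        have h6 := congrArg Nat.unpair h5
        rw [Nat.unpair_pair, Nat.unpair_pair] at h6
        have := congrArg Prod.fst h6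
        simp only at this
        omega
  · intro d hd c hc hac hle
    obtain ⟨i, hi, rfl⟩ := List.mem_map.1 hd
    rw [List.mem_range] at hi
    obtain ⟨cb, hc1, hc2⟩ := hc
    have hx1 : xp j ∈ c.1 := hac (by rw [ha]; exact Or.inr rfl)
    have hx2 : xp j ∉ cb.1 := by
      intro h
      have h1 : xp j ∈ (c ⊓ cb).1 := ⟨hx1, h⟩
      rw [hc1, lb_bot, hB] at h1
      exact zz_ne_xp j (Set.mem_singleton_iff.1 h1).symm
    have hcl : IsClosed cb.1 := IsPi01.isClosed cb.2.1
    obtain ⟨n, hn⟩ := (isOpen_iff.1 hcl.isOpen_compl) (xp j) hx2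
    obtain ⟨k, hk, hkn⟩ := hCinf.exists_gt n
    have hmem : qp j (Nat.pair i k) ∈ cyl (seg (xp j) n) := by
      rw [mem_cyl_seg, seg_eq_iff]
      intro l hl
      have h1 : k ≤ Nat.pair i k := Nat.right_le_pair i k
      have h2 : ¬ (l = j + 1 + Nat.pair i k) := by omega
      simp [qp, xp, h2]
    have h1 : qp j (Nat.pair i k) ∉ cb.1 := hn hmem
    have h2 : qp j (Nat.pair i k) ∈ c.1 := by
      have h3 : qp j (Nat.pair i k) ∈ (c ⊔ cb).1 := by rw [hc2, lb_top]; trivial
      rcases h3 with h3 | h3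
      · exact h3
      · exact absurd h3 h1
    have h3 : qp j (Nat.pair i k) ∈ (cl i).1 := (mem_class (by omega)).2 (Or.inr ⟨k, hk, rfl⟩)
    have h4 : qp j (Nat.pair i k) ∈ a.1 := hle ⟨h2, h3⟩
    rw [ha] at h4
    exact qp_not h4

end Pool.Agent.H572R4.D8h564
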