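import Pool.Agent.H572R4.Stmts

/-! H572-PI, D9: number of accumulating classes, upper bound. -/

set_option autoImplicit false

namespace Pool.Agent.H572R4

open Pool.Agent.Helper446.Defs Pool.Agent.Helper446.CB Pool.Agent.Helper446.CB.Ix

namespace D9aux

/-- initial segments of the points `q` are computable -/
theorem comp_seg (j i : ℕ) : Computable fun x : ℕ × ℕ => seg (qp j (Nat.pair i x.1)) x.2 := by
  have h1 : Primrec fun x : ℕ × ℕ => (List.range x.2).map
      (fun t => (t == j) || (t == j + 1 + Nat.pair i x.1)) := by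
    refine Primrec.list_map (Primrec.list_range.comp Primrec.snd) ?_
    refine Primrec.or.comp ?_ ?_
    · exact Primrec.beq.comp Primrec.snd (Primrec.const j)
    · refine Primrec.beq.comp Primrec.snd ?_
      refine Primrec.nat_add.comp (Primrec.const (j + 1)) ?_
      exact Primrec₂.natPair.comp (Primrec.const i) (Primrec.fst.comp Primrec.fst)
  refine h1.to_comp.of_eq fun x => ?_
  unfold seg qp
  refine List.map_congr_left fun t _ => ?_
  rw [Bool.eq_iff_iff]
  simp

theorem re_out (S : Set (ℕ → Bool)) (hS : IsPi01 S) (j i : ℕ) :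
    REPred fun k => k ∈ {k : ℕ | qp j (Nat.pair i k) ∉ S} := by
  obtain ⟨W, hW, rfl⟩ := isPi01_iff.1 hS
  have h1 : REPred fun x : ℕ × ℕ => seg (qp j (Nat.pair i x.1)) x.2 ∈ W :=
    Pool.Agent.Helper446.RE.comp hW (comp_seg j i)
  have h2 : REPred fun k : ℕ => ∃ n : ℕ, seg (qp j (Nat.pair i k)) n ∈ W :=
    Pool.Agent.Helper446.RE.exN h1
  refine h2.of_eq fun k => ?_
  simp

theorem clopen_at (i : ℕ) (b : Bool) : IsClopen {x : ℕ → Bool | x i = b} := by
  have : {x : ℕ → Bool | x i = b} = (fun x : ℕ → Bool => x i) ⁻¹' {b} := rfl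
  rw [this]
  exact (isClopen_discrete {b}).preimage (continuous_apply i)

end D9aux

open D9aux in
theorem taskD9_h266 : TaskD9 := by
  classical
  intro B hB C hC Q hQ j m a ha hNN
  obtain ⟨hinf, _, hcoh⟩ := hC
  obtain ⟨D, hlen, hDQ, hpw, hacc⟩ := hNN
  set n := j.unpair.1 with hn
  have key : ∀ d ∈ D, ∃ i < n, (C ∩ {k : ℕ | qp j (Nat.pair i k) ∉ d.1}).Finite := by
    intro d hd
    by_contra hcon
    push_neg at hcon
    have hfin : ∀ i < n, {k | k ∈ C ∧ qp j (Nat.pair i k) ∈ d.1}.Finite := by
      intro i hi
      rcases hcoh _ (re_out d.1 d.2.1 j i) with h | h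
      · exact absurd h (hcon i hi)
      · refine h.subset ?_
        rintro k ⟨hk1, hk2⟩
        refine ⟨hk1, ?_⟩
        intro h3
        exact h3 hk2
    -- the finite set of exceptional positions
    have hF : {p : ℕ | p.unpair.1 < n ∧ p.unpair.2 ∈ C ∧ qp j p ∈ d.1}.Finite := by
      have h1 : (⋃ i ∈ Finset.range n,
          (fun k => Nat.pair i k) '' {k | k ∈ C ∧ qp j (Nat.pair i k) ∈ d.1}).Finite := by
        refine Set.Finite.biUnion (Finset.finite_toSet _) fun i hi => ?_
        exact (hfin i (Finset.mem_range.1 (Finset.mem_coe.1 hi))).image _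
      refine h1.subset ?_
      rintro p ⟨hp1, hp2, hp3⟩
      simp only [Set.mem_iUnion]
      refine ⟨p.unpair.1, Finset.mem_range.2 hp1, p.unpair.2, ⟨hp2, ?_⟩, ?_⟩
      · rw [Nat.pair_unpair]; exact hp3
      · exact Nat.pair_unpair p
    let F : Finset ℕ := hF.toFinset
    let U : Set (ℕ → Bool) := ((⋂ i ∈ Finset.range j, {x : ℕ → Bool | x i = false}) ∩
      {x : ℕ → Bool | x j = true}) ∩ ⋂ p ∈ F, {x : ℕ → Bool | x (j + 1 + p) = false}
    have hU : IsClopen U := by
      refine IsClopen.inter (IsClopen.inter ?_ (clopen_at j true)) ?_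
      · exact isClopen_biInter_finset fun i _ => clopen_at i false
      · exact isClopen_biInter_finset fun p _ => clopen_at _ false
    let c : LB B := ⟨B.1 ∪ U, IsPi01.union B.2 (IsPi01.of_clopen hU), Set.subset_union_left⟩
    let c' : LB B := ⟨B.1 ∪ Uᶜ, IsPi01.union B.2 (IsPi01.of_clopen hU.compl),
      Set.subset_union_left⟩
    have hc : Cpl c := by
      refine ⟨c', Subtype.ext ?_, Subtype.ext ?_⟩
      · rw [lb_inf, lb_bot]
        change (B.1 ∪ U) ∩ (B.1 ∪ Uᶜ) = B.1
        rw [← Set.union_inter_distrib_left, Set.inter_compl_self, Set.union_empty]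
      · rw [lb_sup, lb_top]
        change (B.1 ∪ U) ∪ (B.1 ∪ Uᶜ) = Set.univ
        rw [Set.eq_univ_iff_forall]
        intro x
        by_cases hx : x ∈ U
        · exact Or.inl (Or.inr hx)
        · exact Or.inr (Or.inr hx)
    have hac : a ≤ c := by
      rw [lb_le, ha]
      rintro x (rfl | hx)
      · left
        rw [hB]
        rfl
      · right
        rw [Set.mem_singleton_iff] at hx
        subst hx
        refine ⟨⟨?_, ?_⟩, ?_⟩
        · simp only [Set.mem_iInter]
          intro i hi
          have hi' := Finset.mem_range.1 hi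
          change decide (i = j) = false
          exact decide_eq_false (by omega)
        · change decide (j = j) = true
          simp
        · simp only [Set.mem_iInter]
          intro p _
          change decide (j + 1 + p = j) = false
          exact decide_eq_false (by omega)
    refine hacc d hd c hc hac ?_
    rw [lb_le, lb_inf, ha]
    rintro x ⟨hx1, hx2⟩
    have hx1' : x ∈ B.1 ∪ U := hx1
    rcases hx1' with hx | hx
    · rw [hB] at hx
      left
      exact hx
    · obtain ⟨⟨hu1, hu2⟩, hu3⟩ := hx
      simp only [Set.mem_iInter] at hu1 hu3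
      have hu1' : ∀ i < j, x i = false := fun i hi => hu1 i (Finset.mem_range.2 hi)
      have hu2' : x j = true := hu2
      have hu3' : ∀ p ∈ F, x (j + 1 + p) = false := fun p hp => hu3 p hp
      have hxQ : x ∈ qS C := by
        have := hDQ d hd
        rw [lb_le, hQ] at this
        exact this hx2
      rcases hxQ with (rfl | ⟨j', rfl⟩) | ⟨j', p, hp1, hp2, rfl⟩
      · simp [zz] at hu2'
      · right
        have : j = j' := by simpa [xp] using hu2'
        rw [this]
        rfl
      · exfalso
        have h1 : j = j' ∨ j = j' + 1 + p := by simpa [qp] using hu2'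
        have h2 : j = j' := by
          rcases h1 with h1 | h1
          · exact h1
          · exfalso
            have h3 := hu1' j' (by omega)
            simp [qp] at h3
        subst h2
        have hpF : p ∈ F := by
          rw [Set.Finite.mem_toFinset]
          exact ⟨hp1, hp2, hx2⟩
        have h4 := hu3' p hpF
        simp [qp] at h4
  -- the choice of an index is injective
  have hget : ∀ p : Fin D.length, ∃ i : Fin n,
      (C ∩ {k : ℕ | qp j (Nat.pair i.val k) ∉ (D.get p).1}).Finite := by
    intro p
    obtain ⟨i, hi, h⟩ := key (D.get p) (List.get_mem D p)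
    exact ⟨⟨i, hi⟩, h⟩
  choose g hg using hget
  have hne : ∀ p q : Fin D.length, D.get p ⊓ D.get q ≤ a → g p ≠ g q := by
    intro p q hpq he
    have h1 := hg p
    have h2 := hg q
    rw [← he] at h2
    have h3 := hinf.diff (h1.union h2)
    obtain ⟨k, hkC, hk⟩ := h3.nonempty
    have h4 : qp j (Nat.pair (g p).val k) ∈ (D.get p).1 := by
      by_contra h; exact hk (Or.inl ⟨hkC, h⟩)
    have h5 : qp j (Nat.pair (g p).val k) ∈ (D.get q).1 := by
      by_contra h; exact hk (Or.inr ⟨hkC, h⟩)
    rw [lb_le, lb_inf, ha] at hpq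
    rcases hpq ⟨h4, h5⟩ with h | h
    · have := congrFun h j
      simp [qp, zz] at this
    · have := congrFun h (j + 1 + Nat.pair (g p).val k)
      simp [qp, xp] at this
      omega
  have hginj : Function.Injective g := by
    intro p q he
    by_contra hpq
    have hpw' := List.pairwise_iff_get.1 hpw
    rcases lt_or_gt_of_ne hpq with h | h
    · exact hne p q (hpw' p q h) he
    · exact hne q p (hpw' q p h) he.symm
  have hcard := Fintype.card_le_of_injective g hginj
  rw [Fintype.card_fin, Fintype.card_fin, hlen] at hcard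
  exact hcard

end Pool.Agent.H572R4
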