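import Pool.Agent.Helper446.CB.Index
import Pool.Agent.Helper446.Martin

/-!
Project H572-PI (frozen statement S15622): definitions, tasks and assembly.
-/

set_option autoImplicit false

namespace Pool.Agent.H572R4

open Pool.Agent.Helper446.Defs Pool.Agent.Helper446.CB Pool.Agent.Helper446.CB.Ix

/-! ### Order formulas in a bounded lattice -/

section Lat
variable {L : Type} [Lattice L] [BoundedOrder L]

/-- `c` is complemented. -/
def Cpl (c : L) : Prop := ∃ d, c ⊓ d = ⊥ ∧ c ⊔ d = ⊤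

/-- the part of `c` outside `V` is complemented -/
def Good (c V : L) : Prop := ∃ d, Cpl d ∧ d ⊓ V = ⊥ ∧ c = (c ⊓ V) ⊔ d

/-- the alternating formulas -/
def TT (V : ℕ → L) : ℕ → L → Prop
  | 0, c => ¬ Good c (V 0)
  | k + 1, c =>
    (Even k → ∃ c', Cpl c' ∧ c' ≤ c ∧ Good c' (V (k + 1)) ∧ TT V k c') ∧
    (¬ Even k → ∀ c' c'', Cpl c' → Cpl c'' → c' ⊓ c'' = ⊥ → c' ⊔ c'' = c →
      Good c' (V (k + 1)) → TT V k c'')

/-- there are `n` classes below `Q`, pairwise meeting inside `a`, each accumulating at `a` -/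
def NN (Q a : L) (n : ℕ) : Prop :=
  ∃ D : List L, D.length = n ∧ (∀ d ∈ D, d ≤ Q) ∧ D.Pairwise (fun x y => x ⊓ y ≤ a) ∧
    ∀ d ∈ D, ∀ c, Cpl c → a ≤ c → ¬ (c ⊓ d ≤ a)

/-- every atom below `P ⊓ c` has exactly `n` accumulating classes -/
def Mark (P Q : L) (n : ℕ) (c : L) : Prop :=
  ∀ a, IsAtom a → a ≤ P ⊓ c → NN Q a n ∧ ¬ NN Q a (n + 1)

/-- the final formula -/
def Phi (P Q : L) (V : ℕ → L) (K n : ℕ) : Prop := ∃ c, Cpl c ∧ Mark P Q n c ∧ TT V K c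

end Lat

/-! ### The lattice of `Π⁰₁` classes containing a fixed one -/

/-- the lattice of `Π⁰₁` classes containing `B` -/
abbrev LB (B : EPi) : Type := {S : Set (ℕ → Bool) // IsPi01 S ∧ B.1 ⊆ S}

instance instLatLB (B : EPi) : Lattice (LB B) :=
  Subtype.lattice (P := fun S : Set (ℕ → Bool) => IsPi01 S ∧ B.1 ⊆ S)
    (fun _ _ hx hy => ⟨IsPi01.union hx.1 hy.1, hx.2.trans Set.subset_union_left⟩)
    (fun _ _ hx hy => ⟨IsPi01.inter hx.1 hy.1, Set.subset_inter hx.2 hy.2⟩)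

instance instBddLB (B : EPi) : BoundedOrder (LB B) where
  top := ⟨Set.univ, IsPi01.univ, Set.subset_univ _⟩
  le_top a := Set.subset_univ _
  bot := ⟨B.1, B.2, subset_rfl⟩
  bot_le a := a.2.2

theorem lb_inf (B : EPi) (x y : LB B) : (x ⊓ y).1 = x.1 ∩ y.1 := rfl
theorem lb_sup (B : EPi) (x y : LB B) : (x ⊔ y).1 = x.1 ∪ y.1 := rfl
theorem lb_bot (B : EPi) : (⊥ : LB B).1 = B.1 := rfl
theorem lb_top (B : EPi) : (⊤ : LB B).1 = Set.univ := rfl
theorem lb_le (B : EPi) (x y : LB B) : x ≤ y ↔ x.1 ⊆ y.1 := Iff.rfl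

/-- the empty class -/
def eX : EPi := ⟨∅, IsPi01.empty⟩

/-- the zero point, the points `0^j 1 0^ω` and `0^j 1 0^m 1 0^ω` -/
def zz : ℕ → Bool := fun _ => false
def xp (j : ℕ) : ℕ → Bool := fun i => decide (i = j)
def qp (j m : ℕ) : ℕ → Bool := fun i => decide (i = j ∨ i = j + 1 + m)

/-- the `e`-th element of the lattice over the empty class -/
def ix (e : ℕ) : LB eX := ⟨(idx e).1, (idx e).2, Set.empty_subset _⟩

/-- points extending one of the strings of the list -/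
def cylS (l : List (List Bool)) : Set (ℕ → Bool) := {x | ∃ σ ∈ l, seg x σ.length = σ}

/-! ### The combinatorial side -/

/-- computable sets -/
def CR (R : Set ℕ) : Prop := ComputablePred (fun n => n ∈ R)

def TW (A : ℕ → Set ℕ) : ℕ → Set ℕ → Prop
  | 0, R => ¬ CR (R ∩ A 0)
  | k + 1, R =>
    (Even k → ∃ R', CR R' ∧ R' ⊆ R ∧ CR (R' ∩ A (k + 1)) ∧ TW A k R') ∧
    (¬ Even k → ∀ R' R'', CR R' → CR R'' → Disjoint R' R'' → R' ∪ R'' = R →
      CR (R' ∩ A (k + 1)) → TW A k R'')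

/-- the codes with first coordinate `n` -/
def row (n : ℕ) : Set ℕ := {j | j.unpair.1 = n}

/-- the classes `Π⁰_{k+3}` (`k` even) and `Σ⁰_{k+3}` (`k` odd) -/
def Gam (k : ℕ) (D : ℕ → Prop) : Prop := (Even k → Pi (k + 3) D) ∧ (¬ Even k → Sig (k + 3) D)

/-- hardness at level `k` -/
def HH (k : ℕ) : Prop := ∀ D : ℕ → Prop, Gam k D → ∃ A : ℕ → Set ℕ,
  (∀ i, REPred (fun n => n ∈ A i)) ∧ (∀ i j, i ≤ j → j ≤ k → A j ⊆ A i) ∧
  ∀ n, TW A k (row n) ↔ D n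

/-- an infinite co-c.e. cohesive set -/
def CohS (C : Set ℕ) : Prop := C.Infinite ∧ REPred (fun x => x ∉ C) ∧
  ∀ W : Set ℕ, REPred (fun x => x ∈ W) → (C ∩ W).Finite ∨ (C \ W).Finite

/-- locations of a class -/
def Rc (S : Set (ℕ → Bool)) : Set ℕ := {j | xp j ∈ S}

/-! ### Tasks -/

def TaskA1 : Prop := ∀ S : Set (ℕ → Bool),
  (∃ T : List Bool → Bool, Computable T ∧
    S = {x : ℕ → Bool | ∀ n : ℕ, T ((List.range n).map x) = true}) ↔ IsPi01 S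

def TaskA2 : Prop := IsPi01 {zz}

def TaskB : Prop := ∃ C : Set ℕ, CohS C

def TaskC1 : Prop := ∀ (A : ℕ → Set ℕ) (k : ℕ) (R R' : Set ℕ), CR R → CR R' → R ⊆ R' →
  TW A k R → TW A k R'

def TaskC2 : Prop := TaskC1 → ∀ (A : ℕ → Set ℕ) (k : ℕ) (R R' : Set ℕ), CR R → CR R' →
  TW A k (R ∪ R') → TW A k R ∨ TW A k R'

def TaskC3 : Prop := ∀ (A : ℕ → Set ℕ) (k : ℕ) (R : Set ℕ), CR R →
  (∀ i ≤ k, CR (R ∩ A i)) → ¬ TW A k R

/-- transport along an injective computable map `f : ℕ → ℕ` with computable left inverse `g`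
mapping `R` onto the computable set `f '' R`, where `A` and `B` correspond to each other on it. -/
def TaskC4 : Prop := ∀ (A B : ℕ → Set ℕ) (f g : ℕ → ℕ), Computable f → Computable g →
  (∀ x, g (f x) = x) → ∀ (k : ℕ) (R : Set ℕ), CR R → CR (f '' R) →
  (∀ i ≤ k, ∀ x ∈ R, x ∈ A i ↔ f x ∈ B i) → (TW A k R ↔ TW B k (f '' R))

/-- monotone normal form, existential step -/
def TaskC5 : Prop := ∀ (k : ℕ) (D : ℕ → Prop), Even k → Gam (k + 1) D →
  ∃ D' : ℕ → Prop, Gam k D' ∧ (∀ n y y', y ≤ y' → D' (Nat.pair n y) → D' (Nat.pair n y')) ∧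
    ∀ n, D n ↔ ∃ y, D' (Nat.pair n y)

/-- monotone normal form, universal step -/
def TaskC6 : Prop := ∀ (k : ℕ) (D : ℕ → Prop), ¬ Even k → Gam (k + 1) D →
  ∃ D' : ℕ → Prop, Gam k D' ∧ (∀ n y y', y ≤ y' → D' (Nat.pair n y') → D' (Nat.pair n y)) ∧
    ∀ n, D n ↔ ∀ y, D' (Nat.pair n y)

/-- normal form of `Π⁰₃` predicates by finiteness of c.e. initial segments -/
def TaskC7 : Prop := ∀ D : ℕ → Prop, Pi 3 D → ∃ I : ℕ → ℕ → ℕ → Prop,
  (REPred fun x : (ℕ × ℕ) × ℕ => I x.1.1 x.1.2 x.2) ∧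
  (∀ n a i j, i ≤ j → I n a j → I n a i) ∧
  (∀ n a b, a ≤ b → (∀ i, I n a i) → ∀ i, I n b i) ∧
  ∀ n, D n ↔ ∀ a, ¬ ∀ i, I n a i

def TaskC8 : Prop := TaskB → TaskC7 → HH 0

def TaskC9 : Prop := TaskB → TaskC1 → TaskC2 → TaskC3 → TaskC4 → TaskC5 →
  ∀ k, Even k → HH k → HH (k + 1)

def TaskC10 : Prop := TaskB → TaskC1 → TaskC2 → TaskC3 → TaskC4 → TaskC6 →
  ∀ k, ¬ Even k → HH k → HH (k + 1)

/-- complemented elements have computable sets of locations -/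
def TaskD1 : Prop := ∀ (B : EPi), B.1 = {zz} → ∀ c : LB B, Cpl c → CR (Rc c.1)

/-- full elements -/
def TaskD2 : Prop := ∀ (B : EPi), B.1 = {zz} → ∀ R : Set ℕ, CR R →
  ∃ c c' : LB B, c ⊓ c' = ⊥ ∧ c ⊔ c' = ⊤ ∧ Rc c.1 = R ∧ Rc c'.1 = Rᶜ

/-- parameters -/
def TaskD3 : Prop := ∀ (B : EPi), B.1 = {zz} → ∀ A : Set ℕ, REPred (fun n => n ∈ A) →
  ∃ V : LB B, ∀ c : LB B, Cpl c → (Good c V ↔ CR (Rc c.1 ∩ A))

def TaskD4 : Prop := TaskD1 → TaskD2 → ∀ (B : EPi), B.1 = {zz} → ∀ (V : ℕ → LB B)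
  (A : ℕ → Set ℕ), (∀ i (c : LB B), Cpl c → (Good c (V i) ↔ CR (Rc c.1 ∩ A i))) →
  ∀ (k : ℕ) (c : LB B), Cpl c → (TT V k c ↔ TW A k (Rc c.1))

/-- the class `{z} ∪ {x_j}` -/
def pS : Set (ℕ → Bool) := {x | x = zz ∨ ∃ j, x = xp j}

/-- the class `P` together with the points `q_{j,m}`, `m = ⟨i,k⟩`, `i < (j)_0`, `k ∈ C` -/
def qS (C : Set ℕ) : Set (ℕ → Bool) :=
  {x | x ∈ pS ∨ ∃ j m, m.unpair.1 < j.unpair.1 ∧ m.unpair.2 ∈ C ∧ x = qp j m}

def TaskD5 : Prop := IsPi01 pS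

def TaskD6 : Prop := ∀ C : Set ℕ, REPred (fun x => x ∉ C) → IsPi01 (qS C)

def TaskD7 : Prop := (∀ j : ℕ, IsPi01 {zz, xp j}) → ∀ (B : EPi), B.1 = {zz} → ∀ P : LB B, P.1 = pS → ∀ a : LB B,
  (IsAtom a ∧ a ≤ P) ↔ ∃ j, a.1 = {zz, xp j}

def TaskD8 : Prop := ∀ (B : EPi), B.1 = {zz} → ∀ C : Set ℕ, CohS C → ∀ Q : LB B, Q.1 = qS C →
  ∀ (j m : ℕ) (a : LB B), m ≤ j.unpair.1 → a.1 = {zz, xp j} → NN Q a m

def TaskD9 : Prop := ∀ (B : EPi), B.1 = {zz} → ∀ C : Set ℕ, CohS C → ∀ Q : LB B, Q.1 = qS C →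
  ∀ (j m : ℕ) (a : LB B), a.1 = {zz, xp j} → NN Q a m → m ≤ j.unpair.1

def TaskD10 : Prop := ∀ j : ℕ, IsPi01 {zz, xp j}

/-- complemented elements over the empty class are clopen -/
def TaskE1 : Prop := ∀ c : LB eX, Cpl c ↔ ∃ l : List (List Bool), c.1 = cylS l

/-- complexity of `Good` -/
def TaskE2 : Prop := TaskE1 → ∀ cy : List (List Bool) → LB eX, (∀ l, (cy l).1 = cylS l) →
  Sig 2 fun x : List (List Bool) × ℕ => Good (cy x.1) (ix x.2)

/-- complexity of the alternating formulas -/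
def TaskE3 : Prop := TaskE1 → ∀ cy : List (List Bool) → LB eX, (∀ l, (cy l).1 = cylS l) →
  (Sig 2 fun x : List (List Bool) × ℕ => Good (cy x.1) (ix x.2)) → ∀ k : ℕ,
  (Even k → Pi (k + 2) fun x : List (List Bool) × List ℕ =>
    TT (fun i => ix (x.2.getD i 0)) k (cy x.1)) ∧
  (¬ Even k → Sig (k + 2) fun x : List (List Bool) × List ℕ =>
    TT (fun i => ix (x.2.getD i 0)) k (cy x.1))

/-- the marking formula is arithmetical -/
def TaskE4 : Prop := TaskE1 → ∀ cy : List (List Bool) → LB eX, (∀ l, (cy l).1 = cylS l) →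
  Arith fun x : (ℕ × ℕ) × (ℕ × List (List Bool)) =>
    Mark (ix x.1.1) (ix x.1.2) x.2.1 (cy x.2.2)

/-- the formulas are invariant -/
def TaskF1 : Prop := ∀ (L M : Type) [Lattice L] [BoundedOrder L] [Lattice M] [BoundedOrder M]
  (Φ : L ≃o M), (∀ c, Cpl (Φ c) ↔ Cpl c) ∧
    (∀ P Q n c, Mark (Φ P) (Φ Q) n (Φ c) ↔ Mark P Q n c) ∧
    ∀ (V : ℕ → L) (W : ℕ → M) (k : ℕ), (∀ i ≤ k, W i = Φ (V i)) →
      ∀ c, TT W k (Φ c) ↔ TT V k c

/-- a predicate given by an arithmetical formula cannot define a diagonal set: closing step on the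
side of the empty class -/
def TaskE5 : Prop := TaskE1 → TaskE2 → TaskE3 → TaskE4 → ∃ K : ℕ, Even K ∧
  Sig (K + 3) fun x : ((ℕ × ℕ) × List ℕ) × ℕ =>
    Phi (ix x.1.1.1) (ix x.1.1.2) (fun i => ix (x.1.2.getD i 0)) K x.2

/-! ### Assembly -/

theorem hard (hB : TaskB) (h1 : TaskC1) (h2 : TaskC2) (h3 : TaskC3) (h4 : TaskC4) (h5 : TaskC5)
    (h6 : TaskC6) (h7 : TaskC7) (h8 : TaskC8) (h9 : TaskC9) (h10 : TaskC10) : ∀ k, HH k := by
  intro k
  induction k with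
  | zero => exact h8 hB h7
  | succ k ih =>
    by_cases hk : Even k
    · exact h9 hB h1 h2 h3 h4 h5 k hk ih
    · exact h10 hB h1 h2 h3 h4 h6 k hk ih

theorem cr_row (n : ℕ) : CR (row n) := by
  have h : ComputablePred fun x : ℕ => x.unpair.1 = n :=
    Pool.Agent.Helper446.RE.cp_eq (by fun_prop) (Computable.const n)
  exact h.of_eq fun x => Iff.rfl

theorem phiY (h1 : TaskC1) (d1 : TaskD1) (d2 : TaskD2) (d4 : TaskD4)
    (d7 : TaskD7) (d8 : TaskD8) (d9 : TaskD9) (d10 : TaskD10)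
    (B : EPi) (hB : B.1 = {zz}) (C : Set ℕ) (hC : CohS C) (P Q : LB B) (hP : P.1 = pS)
    (hQ : Q.1 = qS C) (V : ℕ → LB B) (A : ℕ → Set ℕ)
    (hV : ∀ i (c : LB B), Cpl c → (Good c (V i) ↔ CR (Rc c.1 ∩ A i))) (K n : ℕ) :
    Phi P Q V K n ↔ TW A K (row n) := by
  constructor
  · rintro ⟨c, hc, hm, ht⟩
    have hsub : Rc c.1 ⊆ row n := by
      intro j hj
      let a : LB B := ⟨{zz, xp j}, d10 j, by
        rw [hB]; intro x hx; left; exact hx⟩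
      have ha := (d7 d10 B hB P hP a).2 ⟨j, rfl⟩
      have hac : a ≤ c := by
        rw [lb_le]
        intro x hx
        rcases hx with hx | hx
        · subst hx
          exact c.2.2 (by rw [hB]; rfl)
        · rw [Set.mem_singleton_iff.1 hx]
          exact hj
      obtain ⟨e1, e2⟩ := hm a ha.1 (le_inf ha.2 hac)
      have e3 := d9 B hB C hC Q hQ j n a rfl e1
      have e4 : ¬ (n + 1 ≤ j.unpair.1) := fun h => e2 (d8 B hB C hC Q hQ j (n + 1) a h rfl)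
      show j.unpair.1 = n
      omega
    have h := (d4 d1 d2 B hB V A hV K c hc).1 ht
    exact h1 A K _ _ (d1 B hB c hc) (cr_row n) hsub h
  · intro h
    obtain ⟨c, c', hcc, hcc', hr, -⟩ := d2 B hB (row n) (cr_row n)
    have hc : Cpl c := ⟨c', hcc, hcc'⟩
    refine ⟨c, hc, ?_, (d4 d1 d2 B hB V A hV K c hc).2 (by rw [hr]; exact h)⟩
    intro a ha hle
    obtain ⟨j, hj⟩ := (d7 d10 B hB P hP a).1 ⟨ha, hle.trans inf_le_left⟩
    have hjc : j ∈ Rc c.1 := by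
      have : xp j ∈ a.1 := by rw [hj]; right; rfl
      exact (hle.trans inf_le_right) this
    rw [hr] at hjc
    have hjn : j.unpair.1 = n := hjc
    refine ⟨d8 B hB C hC Q hQ j n a hjn.ge hj, fun h => ?_⟩
    have := d9 B hB C hC Q hQ j (n + 1) a hj h
    omega

theorem ix_surj (c : LB eX) : ∃ e, ix e = c := by
  obtain ⟨e, he⟩ := idx_surj ⟨c.1, c.2.1⟩
  have h : (idx e).1 = c.1 := by rw [he]
  exact ⟨e, Subtype.ext h⟩

theorem main (A2 : TaskA2) (hB : TaskB) (h1 : TaskC1) (h2 : TaskC2) (h3 : TaskC3) (h4 : TaskC4)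
    (h5 : TaskC5) (h6 : TaskC6) (h7 : TaskC7) (h8 : TaskC8) (h9 : TaskC9) (h10 : TaskC10)
    (d1 : TaskD1) (d2 : TaskD2) (d3 : TaskD3) (d4 : TaskD4) (d5 : TaskD5) (d6 : TaskD6)
    (d7 : TaskD7) (d8 : TaskD8) (d9 : TaskD9) (d10 : TaskD10)
    (e1 : TaskE1) (e2 : TaskE2) (e3 : TaskE3) (e4 : TaskE4) (e5 : TaskE5) (f1 : TaskF1)
    (Φ : LB eX ≃o LB ⟨{zz}, A2⟩) : False := by
  classical
  obtain ⟨C, hC⟩ := hB
  have hard' := hard ⟨C, hC⟩ h1 h2 h3 h4 h5 h6 h7 h8 h9 h10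
  obtain ⟨K, hK, hS⟩ := e5 e1 e2 e3 e4
  let B : EPi := ⟨{zz}, A2⟩
  have hz : ∀ x ∈ B.1, x ∈ pS := fun x hx => Or.inl hx
  let P : LB B := ⟨pS, d5, hz⟩
  let Q : LB B := ⟨qS C, d6 C hC.2.1, fun x hx => Or.inl (hz x hx)⟩
  let dec : ℕ → ((ℕ × ℕ) × List ℕ) := fun i => Denumerable.ofNat ((ℕ × ℕ) × List ℕ) i
  let PX : ℕ → Prop := fun i => Phi (ix (dec i).1.1) (ix (dec i).1.2)
    (fun j => ix ((dec i).2.getD j 0)) K i
  have hPX : Sig (K + 3) PX :=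
    Sig.comp hS (f := fun i : ℕ => (dec i, i)) ((Computable.ofNat _).pair Computable.id)
  have hD : Gam K (fun i => ¬ PX i) := ⟨fun _ => hPX.not, fun h => absurd hK h⟩
  obtain ⟨A, hA, -, hT⟩ := hard' K _ hD
  choose V hV using fun i => d3 B rfl (A i) (hA i)
  obtain ⟨p0, hp0⟩ := ix_surj (Φ.symm P)
  obtain ⟨q0, hq0⟩ := ix_surj (Φ.symm Q)
  choose v hv using fun i => ix_surj (Φ.symm (V i))
  let l : List ℕ := (List.range (K + 1)).map v
  have hl : ∀ i ≤ K, V i = Φ (ix (l.getD i 0)) := by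
    intro i hi
    have : l.getD i 0 = v i := by
      simp [l, List.getD_eq_getElem?_getD, Nat.lt_succ_of_le hi]
    rw [this, hv, OrderIso.apply_symm_apply]
  let i := Encodable.encode (((p0, q0), l) : (ℕ × ℕ) × List ℕ)
  have hdec : dec i = ((p0, q0), l) := Denumerable.ofNat_encode _
  have key : PX i ↔ Phi P Q V K i := by
    show Phi (ix (dec i).1.1) (ix (dec i).1.2) (fun j => ix ((dec i).2.getD j 0)) K i ↔ _
    rw [hdec]
    obtain ⟨g1, g2, g3⟩ := f1 (LB eX) (LB B) Φ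
    have g3' := g3 (fun j => ix (l.getD j 0)) V K hl
    have g2' := g2 (ix p0) (ix q0) i
    rw [hp0, hq0, OrderIso.apply_symm_apply, OrderIso.apply_symm_apply] at g2'
    constructor
    · rintro ⟨c, hc, hm, ht⟩
      rw [hp0, hq0] at hm
      exact ⟨Φ c, (g1 c).2 hc, (g2' c).2 hm, (g3' c).2 ht⟩
    · rintro ⟨c, hc, hm, ht⟩
      have hcc : Φ (Φ.symm c) = c := OrderIso.apply_symm_apply _ _
      rw [hp0, hq0]
      exact ⟨Φ.symm c, (g1 _).1 (by rw [hcc]; exact hc), (g2' _).1 (by rw [hcc]; exact hm),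
        (g3' _).1 (by rw [hcc]; exact ht)⟩
  have key2 := phiY h1 d1 d2 d4 d7 d8 d9 d10 B rfl C hC P Q rfl rfl V A hV K i
  have h := hT i
  rw [← key2, ← key] at h
  tauto

/-- The frozen statement from the tasks. -/
theorem final (A1 : TaskA1) (A2 : TaskA2) (hmain : (LB eX ≃o LB ⟨{zz}, A2⟩) → False) :
    ¬ (∀ P Q : Set (ℕ → Bool),
      (∃ T : List Bool → Bool, Computable T ∧
          P = {x : ℕ → Bool | ∀ n : ℕ, T ((List.range n).map x) = true}) →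
      (∃ T : List Bool → Bool, Computable T ∧
          Q = {x : ℕ → Bool | ∀ n : ℕ, T ((List.range n).map x) = true}) →
      P ≠ Set.univ → Q ≠ Set.univ →
      Nonempty
        ({S : Set (ℕ → Bool) //
            (∃ T : List Bool → Bool, Computable T ∧
              S = {x : ℕ → Bool | ∀ n : ℕ, T ((List.range n).map x) = true}) ∧ P ⊆ S} ≃o
         {S : Set (ℕ → Bool) //
            (∃ T : List Bool → Bool, Computable T ∧
              S = {x : ℕ → Bool | ∀ n : ℕ, T ((List.range n).map x) = true}) ∧ Q ⊆ S})) := by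
  intro h
  obtain ⟨Φ⟩ := h ∅ {zz} ((A1 ∅).2 IsPi01.empty) ((A1 {zz}).2 A2)
    (fun h => by
      have : zz ∈ (∅ : Set (ℕ → Bool)) := by rw [h]; trivial
      exact this)
    (fun h => by
      have h1 : xp 0 ∈ ({zz} : Set (ℕ → Bool)) := by rw [h]; trivial
      have h2 := congrFun (Set.mem_singleton_iff.1 h1) 0
      simp [xp, zz] at h2)
  have e : (fun S : Set (ℕ → Bool) => ∃ T : List Bool → Bool, Computable T ∧
      S = {x : ℕ → Bool | ∀ n : ℕ, T ((List.range n).map x) = true}) = IsPi01 :=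
    funext fun S => propext (A1 S)
  have e2 : ∀ p : Set (ℕ → Bool) → Prop, p = IsPi01 →
      ({S : Set (ℕ → Bool) // p S ∧ (∅ : Set (ℕ → Bool)) ⊆ S} ≃o
        {S : Set (ℕ → Bool) // p S ∧ ({zz} : Set (ℕ → Bool)) ⊆ S}) → False := by
    intro p hp Ψ
    subst hp
    exact hmain Ψ
  exact e2 _ e Φ

end Pool.Agent.H572R4
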