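import Pool.Agent.H572R4.Stmts

/-!
Project H572-PI, second part: computable atomless Boolean algebras (MP_1e98aa_lc).
-/

set_option autoImplicit false

namespace Pool.Agent.H572R4

open Pool.Agent.Helper446.Defs Pool.Agent.Helper446.CB Pool.Agent.Helper446.CB.Ix

/-- a computable atomless nontrivial Boolean algebra: the operations are computable on codes -/
structure CABA (Q : Type) [Primcodable Q] [BooleanAlgebra Q] : Prop where
  comp_sup : Computable₂ fun a b : Q => a ⊔ b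
  comp_inf : Computable₂ fun a b : Q => a ⊓ b
  comp_compl : Computable fun a : Q => aᶜ
  nontriv : (⊥ : Q) ≠ ⊤
  atomless : ∀ a : Q, a ≠ ⊥ → ∃ b : Q, b ≠ ⊥ ∧ b ≤ a ∧ b ≠ a

/-- a computable generating tree of nonzero elements -/
structure TreeB {Q : Type} [Primcodable Q] [BooleanAlgebra Q] (b : List Bool → Q) : Prop where
  comp : Computable b
  root : b [] = ⊤
  sup : ∀ σ, b (σ ++ [false]) ⊔ b (σ ++ [true]) = b σ
  inf : ∀ σ, b (σ ++ [false]) ⊓ b (σ ++ [true]) = ⊥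
  ne : ∀ σ, b σ ≠ ⊥
  gen : ∀ q : Q, ∃ n, ∀ σ : List Bool, σ.length = n → b σ ≤ q ∨ b σ ⊓ q = ⊥

def TaskG1 : Prop := ∀ (Q : Type) [Primcodable Q] [BooleanAlgebra Q], CABA Q →
  ∃ b : List Bool → Q, TreeB b

/-- the representation by clopen sets -/
structure Rep {Q : Type} [Primcodable Q] [BooleanAlgebra Q] (b : List Bool → Q)
    (h : Q → Set (ℕ → Bool)) (f : Q → List (List Bool)) : Prop where
  comp : Computable f
  eq : ∀ q, h q = cylS (f q)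
  le : ∀ q r, q ≤ r ↔ h q ⊆ h r
  sup : ∀ q r, h (q ⊔ r) = h q ∪ h r
  bot : h ⊥ = ∅
  cyl : ∀ σ, h (b σ) = {x | seg x σ.length = σ}

def TaskG2 : Prop := ∀ (Q : Type) [Primcodable Q] [BooleanAlgebra Q], CABA Q →
  ∀ b : List Bool → Q, TreeB b → ∃ (h : Q → Set (ℕ → Bool)) (f : Q → List (List Bool)), Rep b h f

/-- c.e. subideals of the ideal of all elements disjoint from the class `B` form the dual of the
lattice of `Π⁰₁` classes containing `B` -/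
def TaskG3 : Prop := ∀ (Q : Type) [Primcodable Q] [BooleanAlgebra Q], CABA Q →
  ∀ b : List Bool → Q, TreeB b → ∀ (h : Q → Set (ℕ → Bool)) (f : Q → List (List Bool)),
  Rep b h f → ∀ B : EPi, ∃ I : Order.Ideal Q, REPred (fun q => q ∈ I) ∧
    (∀ q, q ∈ I ↔ Disjoint (h q) B.1) ∧
    Nonempty ({K : Order.Ideal Q // REPred (fun q => q ∈ K) ∧ K ≤ I} ≃o (LB B)ᵒᵈ)

/-- Assembly of the second part. -/
theorem final2 (A2 : TaskA2) (g1 : TaskG1) (g2 : TaskG2) (g3 : TaskG3)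
    (hmain : (LB eX ≃o LB ⟨{zz}, A2⟩) → False)
    (Q : Type) [Primcodable Q] [BooleanAlgebra Q] (hQ : CABA Q) :
    ∃ I J : Order.Ideal Q, REPred (fun q => q ∈ I) ∧ REPred (fun q => q ∈ J) ∧
      (∃ a ∈ I, a ≠ ⊥) ∧ (∃ a ∈ J, a ≠ ⊥) ∧
      IsEmpty ({K : Order.Ideal Q // REPred (fun q => q ∈ K) ∧ K ≤ I} ≃o
        {K : Order.Ideal Q // REPred (fun q => q ∈ K) ∧ K ≤ J}) := by
  obtain ⟨b, hb⟩ := g1 Q hQ
  obtain ⟨h, f, hr⟩ := g2 Q hQ b hb
  obtain ⟨I, hI, hI2, ⟨e1⟩⟩ := g3 Q hQ b hb h f hr eX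
  obtain ⟨J, hJ, hJ2, ⟨e2⟩⟩ := g3 Q hQ b hb h f hr ⟨{zz}, A2⟩
  refine ⟨I, J, hI, hJ, ⟨⊤, (hI2 _).2 ?_, hQ.nontriv.symm⟩, ⟨b [true], (hJ2 _).2 ?_, hb.ne _⟩,
    ⟨fun e => ?_⟩⟩
  · exact Set.disjoint_empty _
  · rw [hr.cyl]
    show Disjoint _ ({zz} : Set (ℕ → Bool))
    rw [Set.disjoint_singleton_right]
    intro h1
    have : seg zz 1 = [true] := h1
    simp [seg, zz] at this
  · have e3 : (LB eX)ᵒᵈ ≃o (LB ⟨{zz}, A2⟩)ᵒᵈ := e1.symm.trans (e.trans e2)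
    exact hmain (OrderIso.dual e3)

end Pool.Agent.H572R4
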