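import Pool.Agent.H572R4.Stmts

/-!
Tasks C5, C6, C7 of project H572-PI (second prover helper192): normal forms.
-/

set_option autoImplicit false

namespace Pool.Agent.H572R4

open Pool.Agent.Helper446 Pool.Agent.Helper446.CB

theorem taskC5_helper192 : TaskC5 := by
  intro k D hk hD
  obtain ⟨q, hq, h⟩ := hD.2 (by rw [Nat.even_add_one, not_not]; exact hk)
  refine ⟨fun p => ∃ i < p.unpair.2 + 1, ¬ q (p.unpair.1, i), ⟨fun _ => ?_, fun h => absurd hk h⟩,
    ?_, ?_⟩
  · refine Pi.ex_lt (p := fun (p : ℕ) i => ¬ q (p.unpair.1, i)) ?_ (f := fun p => p.unpair.2 + 1)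
      (Computable.succ.comp (Computable.snd.comp Computable.unpair))
    exact hq.not.comp (f := fun x : ℕ × ℕ => (x.1.unpair.1, x.2)) (by fun_prop)
  · rintro n y y' hy ⟨i, hi, h2⟩
    simp only [Nat.unpair_pair] at hi h2 ⊢
    exact ⟨i, by omega, h2⟩
  · intro n
    rw [h n]
    constructor
    · rintro ⟨m, hm⟩
      exact ⟨m, m, by simp, by simpa using hm⟩
    · rintro ⟨y, m, -, hm⟩
      exact ⟨m, by simpa using hm⟩

theorem taskC6_helper192 : TaskC6 := by
  intro k D hk hD
  obtain ⟨q, hq, h⟩ := hD.1 (by rw [Nat.even_add_one]; exact hk)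
  have h' : ∀ n, D n ↔ ∀ m, q (n, m) := by
    intro n
    have := h n
    constructor
    · intro hD m
      by_contra hm
      exact this.2 ⟨m, hm⟩ hD
    · intro hm
      by_contra hD
      obtain ⟨m, hm'⟩ := this.1 hD
      exact hm' (hm m)
  refine ⟨fun p => ∀ i < p.unpair.2 + 1, q (p.unpair.1, i), ⟨fun h => absurd h hk, fun _ => ?_⟩,
    ?_, ?_⟩
  · refine Sig.all_lt (p := fun (p : ℕ) i => q (p.unpair.1, i)) ?_ (f := fun p => p.unpair.2 + 1)
      (Computable.succ.comp (Computable.snd.comp Computable.unpair))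
    exact hq.comp (f := fun x : ℕ × ℕ => (x.1.unpair.1, x.2)) (by fun_prop)
  · intro n y y' hy hall i hi
    simp only [Nat.unpair_pair] at hi hall ⊢
    exact hall i (by omega)
  · intro n
    rw [h' n]
    constructor
    · intro hm y i _
      simpa using hm i
    · intro hall m
      have := hall m m (by simp)
      simpa using this

theorem taskC7_helper192 : TaskC7 := by
  intro D hD
  obtain ⟨q, ⟨r, hr, hqr⟩, h⟩ := hD
  have h' : ∀ n, D n ↔ ∀ a, ∃ b, ¬ r ((n, a), b) := by
    intro n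
    have h1 := h n
    constructor
    · intro hD a
      by_contra ha
      exact h1.2 ⟨a, fun h5 => ha ((hqr (n, a)).1 h5)⟩ hD
    · intro hm
      by_contra hD
      obtain ⟨a, ha⟩ := h1.1 hD
      exact ha ((hqr (n, a)).2 (hm a))
  refine ⟨fun n a i => ∃ a' < a + 1, ∀ b < i, r ((n, a'), b), ?_, ?_, ?_, ?_⟩
  · rw [← sig_one]
    refine Sig.ex_lt (p := fun (x : (ℕ × ℕ) × ℕ) a' => ∀ b < x.2, r ((x.1.1, a'), b)) ?_
      (f := fun x : (ℕ × ℕ) × ℕ => x.1.2 + 1)
      (Computable.succ.comp (Computable.snd.comp Computable.fst))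
    refine Sig.all_lt (p := fun (x : ((ℕ × ℕ) × ℕ) × ℕ) b => r ((x.1.1.1, x.2), b)) ?_
      (f := fun x : ((ℕ × ℕ) × ℕ) × ℕ => x.1.2) (by fun_prop)
    exact hr.comp (f := fun x : (((ℕ × ℕ) × ℕ) × ℕ) × ℕ => ((x.1.1.1.1, x.1.2), x.2))
      (by fun_prop)
  · rintro n a i j hij ⟨a', ha', h5⟩
    exact ⟨a', ha', fun b hb => h5 b (by omega)⟩
  · intro n a b hab hall i
    obtain ⟨a', ha', h5⟩ := hall i
    exact ⟨a', by omega, h5⟩
  · intro n
    rw [h' n]
    constructor
    · intro hD a hall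
      choose w hw using hD
      obtain ⟨a', ha', h5⟩ := hall ((∑ a' ∈ Finset.range (a + 1), w a') + 1)
      refine hw a' (h5 (w a') ?_)
      have : w a' ≤ ∑ a' ∈ Finset.range (a + 1), w a' :=
        Finset.single_le_sum (fun _ _ => Nat.zero_le _) (Finset.mem_range.2 ha')
      omega
    · intro hall a
      by_contra hno
      push Not at hno
      exact hall a (fun i => ⟨a, by omega, fun b _ => hno b⟩)

end Pool.Agent.H572R4
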