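import Pool.Agent.H572R4.TaskC10

/-!
Task C9 of project H572-PI (second prover helper192): the existential step.
-/

set_option autoImplicit false

namespace Pool.Agent.H572R4

open C10H192 Pool.Agent.Helper446 in
theorem taskC9_helper192
    (imm : ∀ C, CohS C → ∀ W : Set ℕ, REPred (fun x => x ∈ W) → W ⊆ C → W.Finite) :
    TaskC9 := by
  intro hB h1 h2 h3 h4 h5 k hk hH D hD
  obtain ⟨C, hC⟩ := hB
  obtain ⟨D', hD', hmono, hDD⟩ := h5 k D hk hD
  obtain ⟨A', hA', hnest, hT⟩ := hH D' hD'
  let dead : Set ℕ := {x | yy x ∉ C}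
  let A : ℕ → Set ℕ := fun i => if i ≤ k then {x | old x ∈ A' i} ∪ dead else dead
  have hAle : ∀ i, i ≤ k → A i = {x | old x ∈ A' i} ∪ dead := fun i hi => if_pos hi
  have hAlast : A (k + 1) = dead := if_neg (by omega)
  have hdead : REPred fun x => x ∈ dead := RE.comp (p := fun y => y ∉ C) hC.2.1 yy_comp
  have hcol : ∀ n y, y ∈ C → (TW A k (col n y) ↔ D' (Nat.pair n y)) := by
    intro n y hy
    rw [← hT (Nat.pair n y), ← old_col n y]
    refine h4 A A' old new old_comp new_comp new_old k (col n y) (cr_col n y) ?_ ?_
    · rw [old_col]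
      exact cr_row _
    · intro i hi x hx
      rw [hAle i hi]
      constructor
      · rintro (h | h)
        · exact h
        · exfalso
          apply h
          rw [hx.2]
          exact hy
      · intro h
        exact Or.inl h
  refine ⟨A, ?_, ?_, ?_⟩
  · intro i
    by_cases hi : i ≤ k
    · rw [hAle i hi]
      exact RE.or (RE.comp (p := fun x => x ∈ A' i) (hA' i) old_comp) hdead
    · have : A i = dead := if_neg hi
      rw [this]
      exact hdead
  · intro i j hij hj
    by_cases hj' : j ≤ k
    · rw [hAle j hj', hAle i (hij.trans hj')]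
      rintro x (h | h)
      · exact Or.inl (hnest i j hij hj' h)
      · exact Or.inr h
    · have : A j = dead := if_neg hj'
      rw [this]
      by_cases hi : i ≤ k
      · rw [hAle i hi]
        exact Set.subset_union_right
      · have : A i = dead := if_neg hi
        rw [this]
  · intro n
    rw [hDD n]
    constructor
    · intro hTW
      obtain ⟨R, cR, hR, cRd, hTR⟩ := hTW.1 hk
      rw [hAlast] at cRd
      have e : (R ∩ dead) ∪ (R ∩ (R ∩ dead)ᶜ) = R := by
        ext x
        constructor
        · rintro (h | h)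
          · exact h.1
          · exact h.1
        · intro hx
          by_cases hxk : x ∈ R ∩ dead
          · exact Or.inl hxk
          · exact Or.inr ⟨hx, hxk⟩
      have cR4 : CR (R ∩ (R ∩ dead)ᶜ) := cr_inter cR (cr_compl cRd)
      have hnd : ∀ x ∈ R ∩ (R ∩ dead)ᶜ, yy x ∈ C := by
        intro x hx
        by_contra h5
        exact hx.2 ⟨hx.1, h5⟩
      rw [← e] at hTR
      rcases h2 h1 A k _ _ cRd cR4 hTR with h | h
      · exfalso
        refine h3 A k _ cRd (fun i hi => ?_) h
        have : R ∩ dead ∩ A i = R ∩ dead := by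
          apply Set.inter_eq_left.2
          rintro x ⟨-, hx⟩
          rw [hAle i hi]
          exact Or.inr hx
        rw [this]
        exact cRd
      · have hfin := cols_finite imm C hC _ cR4 hnd
        obtain ⟨y, hy, hTy⟩ := fin_cols h1 h2 h3 A k hfin.toFinset _ cR4 h (fun x hx => by
          rw [Set.Finite.mem_toFinset]
          exact ⟨x, hx, rfl⟩)
        rw [Set.Finite.mem_toFinset] at hy
        obtain ⟨x, hx, rfl⟩ := hy
        refine ⟨yy x, (hcol n (yy x) (hnd x hx)).1 ?_⟩
        refine h1 A k _ _ (cr_inter cR4 (cr_eq yy_comp (yy x))) (cr_col n _) ?_ hTy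
        rintro z ⟨hz, hz2⟩
        exact ⟨hR hz.1, hz2⟩
    · rintro ⟨y0, hy0⟩
      obtain ⟨y, hyC, hy⟩ := hC.1.exists_gt y0
      refine ⟨fun _ => ⟨col n y, cr_col n y, fun x hx => hx.1, ?_,
        (hcol n y hyC).2 (hmono n y0 y hy.le hy0)⟩, fun h => absurd hk h⟩
      rw [hAlast]
      have : col n y ∩ dead = ∅ := by
        ext x
        constructor
        · rintro ⟨hx, hx2⟩
          exfalso
          apply hx2
          rw [hx.2]
          exact hyC
        · intro hx
          exact absurd hx (by simp)
      rw [this]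
      exact cr_empty

end Pool.Agent.H572R4
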