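import Pool.Agent.H572R4.Stmts

set_option autoImplicit false

namespace Pool.Agent.H572R4
namespace F1H633

section
variable {L M : Type} [Lattice L] [BoundedOrder L] [Lattice M] [BoundedOrder M]

theorem cpl_map (Φ : L ≃o M) {c : L} (h : Cpl c) : Cpl (Φ c) := by
  obtain ⟨d, h1, h2⟩ := h
  exact ⟨Φ d, by rw [← map_inf, h1, map_bot], by rw [← map_sup, h2, map_top]⟩

theorem cpl_iff (Φ : L ≃o M) (c : L) : Cpl (Φ c) ↔ Cpl c := by
  constructor
  · intro h
    have := cpl_map Φ.symm h
    rwa [Φ.symm_apply_apply] at this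
  · exact cpl_map Φ

theorem good_map (Φ : L ≃o M) {c V : L} (h : Good c V) : Good (Φ c) (Φ V) := by
  obtain ⟨d, h0, h1, h2⟩ := h
  refine ⟨Φ d, cpl_map Φ h0, by rw [← map_inf, h1, map_bot], ?_⟩
  rw [← map_inf, ← map_sup, ← h2]

theorem good_iff (Φ : L ≃o M) (c V : L) : Good (Φ c) (Φ V) ↔ Good c V := by
  constructor
  · intro h
    have := good_map Φ.symm h
    rwa [Φ.symm_apply_apply, Φ.symm_apply_apply] at this
  · exact good_map Φ

theorem nn_map (Φ : L ≃o M) {Q a : L} {n : ℕ} (h : NN Q a n) : NN (Φ Q) (Φ a) n := by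
  obtain ⟨D, h1, h2, h3, h4⟩ := h
  refine ⟨D.map Φ, by rw [List.length_map, h1], ?_, ?_, ?_⟩
  · intro d hd
    obtain ⟨e, he, rfl⟩ := List.mem_map.mp hd
    exact Φ.monotone (h2 e he)
  · rw [List.pairwise_map]
    refine h3.imp ?_
    intro x y hxy
    rw [← map_inf]
    exact Φ.monotone hxy
  · intro d hd c hc hac hcd
    obtain ⟨e, he, rfl⟩ := List.mem_map.mp hd
    have hc' : Cpl (Φ.symm c) := cpl_map Φ.symm hc
    have e1 : Φ (Φ.symm c) = c := Φ.apply_symm_apply c
    refine h4 e he (Φ.symm c) hc' ?_ ?_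
    · rw [← Φ.le_iff_le, e1]
      exact hac
    · rw [← Φ.le_iff_le, map_inf, e1]
      exact hcd

theorem nn_iff (Φ : L ≃o M) (Q a : L) (n : ℕ) : NN (Φ Q) (Φ a) n ↔ NN Q a n := by
  constructor
  · intro h
    have := nn_map Φ.symm h
    rwa [Φ.symm_apply_apply, Φ.symm_apply_apply] at this
  · exact nn_map Φ

theorem mark_map (Φ : L ≃o M) {P Q c : L} {n : ℕ} (h : Mark P Q n c) :
    Mark (Φ P) (Φ Q) n (Φ c) := by
  intro a ha hle
  have e1 : Φ (Φ.symm a) = a := Φ.apply_symm_apply a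
  have ha' : IsAtom (Φ.symm a) := (OrderIso.isAtom_iff Φ.symm a).mpr ha
  have hle' : Φ.symm a ≤ P ⊓ c := by
    rw [← Φ.le_iff_le, e1, map_inf]
    exact hle
  have h1 := h (Φ.symm a) ha' hle'
  rw [← nn_iff Φ, ← nn_iff Φ, e1] at h1
  exact h1

theorem mark_iff (Φ : L ≃o M) (P Q : L) (n : ℕ) (c : L) :
    Mark (Φ P) (Φ Q) n (Φ c) ↔ Mark P Q n c := by
  constructor
  · intro h
    have := mark_map Φ.symm h
    rwa [Φ.symm_apply_apply, Φ.symm_apply_apply, Φ.symm_apply_apply] at this
  · exact mark_map Φ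

theorem tt_map (V : ℕ → L) (W : ℕ → M) (Φ : L ≃o M) (k : ℕ) :
    (∀ i ≤ k, W i = Φ (V i)) → ∀ c, TT W k (Φ c) ↔ TT V k c := by
  induction k with
  | zero =>
    intro hW c
    simp only [TT]
    rw [hW 0 le_rfl, good_iff]
  | succ k ih =>
    intro hW c
    have hW' : ∀ i ≤ k, W i = Φ (V i) := fun i hi => hW i (by omega)
    have ih' := ih hW'
    have hk := hW (k + 1) le_rfl
    simp only [TT]
    apply and_congr
    · apply imp_congr_right
      intro _
      constructor
      · rintro ⟨c', h1, h2, h3, h4⟩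
        have e1 : Φ (Φ.symm c') = c' := Φ.apply_symm_apply c'
        refine ⟨Φ.symm c', cpl_map Φ.symm h1, ?_, ?_, ?_⟩
        · rw [← Φ.le_iff_le, e1]
          exact h2
        · rw [← good_iff Φ, e1, ← hk]
          exact h3
        · rw [← ih', e1]
          exact h4
      · rintro ⟨c', h1, h2, h3, h4⟩
        refine ⟨Φ c', cpl_map Φ h1, Φ.monotone h2, ?_, ?_⟩
        · rw [hk, good_iff]
          exact h3
        · rw [ih']
          exact h4
    · apply imp_congr_right
      intro _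
      constructor
      · intro h c' c'' h1 h2 h3 h4 h5
        have := h (Φ c') (Φ c'') (cpl_map Φ h1) (cpl_map Φ h2)
          (by rw [← map_inf, h3, map_bot]) (by rw [← map_sup, h4])
          (by rw [hk, good_iff]; exact h5)
        rwa [ih'] at this
      · intro h c' c'' h1 h2 h3 h4 h5
        have e1 : Φ (Φ.symm c') = c' := Φ.apply_symm_apply c'
        have e2 : Φ (Φ.symm c'') = c'' := Φ.apply_symm_apply c''
        have := h (Φ.symm c') (Φ.symm c'') (cpl_map Φ.symm h1) (cpl_map Φ.symm h2)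
          (by rw [← map_inf, h3, map_bot])
          (by rw [← map_sup, h4, Φ.symm_apply_apply])
          (by rw [← good_iff Φ, e1, ← hk]; exact h5)
        rw [← ih', e2] at this
        exact this

end

end F1H633

theorem taskF1_helper633 : TaskF1 := by
  intro L M _ _ _ _ Φ
  exact ⟨F1H633.cpl_iff Φ, F1H633.mark_iff Φ, fun V W k h c => F1H633.tt_map V W Φ k h c⟩

end Pool.Agent.H572R4
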